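import Pool.Agent.W8.KU.Stm

/-!
Project KU, part Val: explicit values of the deformation.
-/

set_option autoImplicit false

namespace Pool.Agent.W740.KU

open Pool.Agent.W8.KU Metric

theorem cut_one {u v s : ℝ} (h : u < v) (hs : s ≤ u) : cut u v s = 1 := by
  unfold cut
  rw [Real.smoothTransition.zero_of_nonpos (div_nonpos_of_nonpos_of_nonneg (by linarith)
    (by linarith))]
  ring

theorem cut_zero {u v s : ℝ} (h : u < v) (hs : v ≤ s) : cut u v s = 0 := by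
  unfold cut
  rw [Real.smoothTransition.one_of_one_le ((one_le_div (by linarith)).2 (by linarith))]
  ring

theorem cut_nonneg (u v s : ℝ) : 0 ≤ cut u v s := by
  unfold cut
  linarith [Real.smoothTransition.le_one ((s - u) / (v - u))]

theorem cut_le_one (u v s : ℝ) : cut u v s ≤ 1 := by
  unfold cut
  linarith [Real.smoothTransition.nonneg ((s - u) / (v - u))]

theorem norm_P0 : ‖P0‖ = 20 := by
  unfold P0
  rw [EuclideanSpace.norm_single]
  norm_num

theorem lower1 (x : E3) : 20 - ‖x - P0‖ ≤ ‖x‖ := by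
  have h := norm_sub_norm_le P0 (P0 - x)
  have h2 : P0 - (P0 - x) = x := by abel
  rw [h2, norm_P0, norm_sub_rev] at h
  exact h

theorem lower2 (x : E3) : 20 - ‖x‖ ≤ ‖x - P0‖ := by
  linarith [lower1 x]

theorem lower3 (x : E3) : ‖x‖ - 20 ≤ ‖x - P0‖ := by
  have h := norm_sub_norm_le x P0
  rw [norm_P0] at h
  exact h

theorem Val_proof : Val := by
  refine ⟨?_, ?_, ?_, ?_, ?_⟩
  · intro t x hx
    rw [dist_eq_norm] at hx
    have h1 := lower1 x
    have h0 := norm_nonneg (x - P0)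
    unfold Ph
    rw [cut_one (by norm_num : (7 : ℝ) < 8) (by nlinarith),
      cut_zero (by norm_num : (16 : ℝ) < 20) (by nlinarith),
      cut_zero (by norm_num : (49 : ℝ) < 60) (by nlinarith)]
    module
  · intro t x hx
    have h1 := lower2 x
    have h0 := norm_nonneg x
    unfold Ph
    rw [cut_zero (by norm_num : (7 : ℝ) < 8) (by nlinarith),
      cut_one (by norm_num : (16 : ℝ) < 20) (by nlinarith),
      cut_one (by norm_num : (21 : ℝ) < 25) (by nlinarith)]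
    module
  · intro t x h5 h7
    have h1 := lower2 x
    have h0 := norm_nonneg x
    unfold Ph
    rw [cut_zero (by norm_num : (7 : ℝ) < 8) (by nlinarith),
      cut_zero (by norm_num : (16 : ℝ) < 20) (by nlinarith),
      cut_one (by norm_num : (49 : ℝ) < 60) (by nlinarith),
      cut_zero (by norm_num : (21 : ℝ) < 25) (by nlinarith)]
    module
  · intro t x hx
    have h1 := lower3 x
    unfold Ph
    rw [cut_zero (by norm_num : (7 : ℝ) < 8) (by nlinarith),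
      cut_zero (by norm_num : (16 : ℝ) < 20) (by nlinarith),
      cut_zero (by norm_num : (49 : ℝ) < 60) (by nlinarith)]
    module
  · intro hRad t x ht
    obtain ⟨-, -, -, -, -, -, ha, hb, hc, -⟩ := hRad.2 t (by linarith)
    rw [dist_eq_norm]
    have hA : cut 7 8 (‖x - P0‖ ^ 2) * ‖x - P0‖ ≤ 3 := by
      rcases le_or_gt 8 (‖x - P0‖ ^ 2) with h | h
      · rw [cut_zero (by norm_num) h]
        norm_num
      · have h0 := norm_nonneg (x - P0)
        have h3 : ‖x - P0‖ ≤ 3 := by nlinarith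
        calc cut 7 8 (‖x - P0‖ ^ 2) * ‖x - P0‖ ≤ 1 * ‖x - P0‖ :=
              mul_le_mul_of_nonneg_right (cut_le_one _ _ _) h0
          _ ≤ 3 := by linarith
    have hB : cut 16 20 (‖x‖ ^ 2) * ‖x‖ ≤ 8 := by
      rcases le_or_gt 20 (‖x‖ ^ 2) with h | h
      · rw [cut_zero (by norm_num) h]
        norm_num
      · have h0 := norm_nonneg x
        have h3 : ‖x‖ ≤ 8 := by nlinarith
        calc cut 16 20 (‖x‖ ^ 2) * ‖x‖ ≤ 1 * ‖x‖ :=
              mul_le_mul_of_nonneg_right (cut_le_one _ _ _) h0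
          _ ≤ 8 := by linarith
    have hC0 : 0 ≤ cut 49 60 (‖x‖ ^ 2) * (1 - cut 21 25 (‖x‖ ^ 2)) :=
      mul_nonneg (cut_nonneg _ _ _) (by linarith [cut_le_one 21 25 (‖x‖ ^ 2)])
    have hC1 : cut 49 60 (‖x‖ ^ 2) * (1 - cut 21 25 (‖x‖ ^ 2)) ≤ 1 :=
      mul_le_one₀ (cut_le_one _ _ _) (by linarith [cut_le_one 21 25 (‖x‖ ^ 2)])
        (by linarith [cut_nonneg 21 25 (‖x‖ ^ 2)])
    have hC : cut 49 60 (‖x‖ ^ 2) * (1 - cut 21 25 (‖x‖ ^ 2)) * ‖x‖ ≤ 8 := by
      rcases le_or_gt 60 (‖x‖ ^ 2) with h | h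
      · rw [cut_zero (by norm_num : (49 : ℝ) < 60) h]
        norm_num
      · have h0 := norm_nonneg x
        have h3 : ‖x‖ ≤ 8 := by nlinarith
        calc cut 49 60 (‖x‖ ^ 2) * (1 - cut 21 25 (‖x‖ ^ 2)) * ‖x‖ ≤ 1 * ‖x‖ :=
              mul_le_mul_of_nonneg_right hC1 h0
          _ ≤ 8 := by linarith
    have hA0 : 0 ≤ cut 7 8 (‖x - P0‖ ^ 2) * ‖x - P0‖ :=
      mul_nonneg (cut_nonneg _ _ _) (norm_nonneg _)
    have hB0 : 0 ≤ cut 16 20 (‖x‖ ^ 2) * ‖x‖ := mul_nonneg (cut_nonneg _ _ _) (norm_nonneg _)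
    have hC00 : 0 ≤ cut 49 60 (‖x‖ ^ 2) * (1 - cut 21 25 (‖x‖ ^ 2)) * ‖x‖ :=
      mul_nonneg hC0 (norm_nonneg _)
    have e1 : Ph t x - x = ((ra t / 2 - 1) * cut 7 8 (‖x - P0‖ ^ 2)) • (x - P0) +
        (((rc t / 3 - 1) * cut 16 20 (‖x‖ ^ 2)) • x +
      ((rb t / 6 - 1) * (cut 49 60 (‖x‖ ^ 2) * (1 - cut 21 25 (‖x‖ ^ 2)))) • x) := by
      unfold Ph
      module
    rw [e1]
    refine (norm_add_le _ _).trans ?_
    have n1 : ‖((ra t / 2 - 1) * cut 7 8 (‖x - P0‖ ^ 2)) • (x - P0)‖ ≤ |t| * 3 := by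
      rw [norm_smul, Real.norm_eq_abs, abs_mul, abs_of_nonneg (cut_nonneg 7 8 _), mul_assoc]
      exact mul_le_mul ha hA hA0 (abs_nonneg _)
    have n2 : ‖((rc t / 3 - 1) * cut 16 20 (‖x‖ ^ 2)) • x‖ ≤ |t| * 8 := by
      rw [norm_smul, Real.norm_eq_abs, abs_mul, abs_of_nonneg (cut_nonneg 16 20 _), mul_assoc]
      exact mul_le_mul hc hB hB0 (abs_nonneg _)
    have n3 : ‖((rb t / 6 - 1) * (cut 49 60 (‖x‖ ^ 2) * (1 - cut 21 25 (‖x‖ ^ 2)))) • x‖ ≤
        |t| * 8 := by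
      rw [norm_smul, Real.norm_eq_abs, abs_mul, abs_of_nonneg hC0, mul_assoc]
      exact mul_le_mul hb hC hC00 (abs_nonneg _)
    have n4 := norm_add_le (((rc t / 3 - 1) * cut 16 20 (‖x‖ ^ 2)) • x)
      (((rb t / 6 - 1) * (cut 49 60 (‖x‖ ^ 2) * (1 - cut 21 25 (‖x‖ ^ 2)))) • x)
    linarith

end Pool.Agent.W740.KU
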